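import Pool.Agent.helper5.BEY.SpecA

/-!
# Row bey:PE1 (MP_4467b5_nt): the mean square of the periodization
-/

set_option autoImplicit false

open Complex MeasureTheory

namespace Pool.Agent.BEY

/-- the amplitude times the oscillating factor -/
noncomputable def PE1_u (A : ℝ → ℝ) (t y : ℝ) : ℂ := ((A y : ℝ) : ℂ) * E t y

theorem PE1_u_zero {Q : ℝ} {A : ℝ → ℝ} (h : ∀ y, y ∉ Set.Icc Q (4 * Q) → A y = 0) (t y : ℝ)
    (hy : y ∉ Set.Icc Q (4 * Q)) : PE1_u A t y = 0 := by
  unfold PE1_u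
  rw [h y hy, Complex.ofReal_zero, zero_mul]

theorem PE1_E_cont (t y : ℝ) (hy : 0 < y) : ContinuousAt (E t) y := by
  unfold E el
  have h1 : ContinuousAt (fun y : ℝ => 1 + 1 / y) y :=
    continuousAt_const.add (continuousAt_const.div continuousAt_id hy.ne')
  have h2 : (1 + 1 / y : ℝ) ≠ 0 := by positivity
  have h3 : ContinuousAt (fun y : ℝ => Real.log (1 + 1 / y)) y := h1.log h2
  have h4 : ContinuousAt (fun y : ℝ => -(t * Real.log (1 + 1 / y))) y := (continuousAt_const.mul h3).neg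
  have h5 : ContinuousAt (fun y : ℝ => ((-(t * Real.log (1 + 1 / y)) : ℝ) : ℂ)) y :=
    Complex.continuous_ofReal.continuousAt.comp h4
  exact Complex.continuous_exp.continuousAt.comp (h5.mul continuousAt_const)

theorem PE1_u_cont {Q : ℝ} {A : ℝ → ℝ} (hQ : 1 ≤ Q) (hA : Am Q A) (t : ℝ) : Continuous (PE1_u A t) := by
  rw [continuous_iff_continuousAt]
  intro y
  by_cases hy : 0 < y
  · unfold PE1_u
    exact (Complex.continuous_ofReal.comp hA.1.continuous).continuousAt.mul (PE1_E_cont t y hy)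
  · have h1 : Set.Iio (1 : ℝ) ∈ nhds y := Iio_mem_nhds (by linarith)
    have h2 : PE1_u A t =ᶠ[nhds y] fun _ => (0 : ℂ) := by
      filter_upwards [h1] with z hz
      refine PE1_u_zero hA.2.1 t z ?_
      intro hz'
      have h3 : Q ≤ z := hz'.1
      have h4 : z < 1 := hz
      linarith
    exact h2.continuousAt

/-- the shifted product -/
noncomputable def PE1_H (F : ℝ → ℂ) (k : ℤ) (y : ℝ) : ℂ := F (y + k) * (starRingEnd ℂ) (F y)

theorem PE1_OI (A : ℝ → ℝ) (t t' : ℝ) (j : ℤ) :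
    OI A A t t' j = ∫ y : ℝ, PE1_u A t (y + j) * (starRingEnd ℂ) (PE1_u A t' y) := by
  unfold OI PE1_u
  refine integral_congr_ae (Filter.Eventually.of_forall fun y => ?_)
  simp only [map_mul, Complex.conj_ofReal]
  push_cast
  ring

theorem PE1_shift {Q : ℝ} {F : ℝ → ℂ} (hQ : 1 ≤ Q) (hF0 : ∀ y, y ∉ Set.Icc Q (4 * Q) → F y = 0) (N : ℕ)
    (hN : 4 * Q ≤ N) (x : ℝ) (hx0 : 0 ≤ x) (hx1 : x ≤ 1) (j : ℕ) (hj : j ≤ N) :
    ∑ i ∈ Finset.range (N + 1), F (x + i) = ∑ k ∈ Finset.Icc (-(N : ℤ)) (N : ℤ), F (x + j + k) := by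
  refine Finset.sum_of_injOn (fun i : ℕ => (i : ℤ) - j) ?_ ?_ ?_ ?_
  · intro a _ b _ hab
    have h1 : (a : ℤ) - j = (b : ℤ) - j := hab
    omega
  · intro i hi
    have h1 := Finset.mem_range.1 (Finset.mem_coe.1 hi)
    exact Finset.mem_coe.2 (Finset.mem_Icc.2 ⟨by simp only; omega, by simp only; omega⟩)
  · intro k _ hk
    apply hF0
    intro hmem
    have h1 : Q ≤ x + j + k := hmem.1
    have h2 : x + j + k ≤ 4 * Q := hmem.2
    apply hk
    have h3 : (0 : ℝ) ≤ ((j : ℤ) + k : ℤ) := by push_cast; linarith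
    have h4 : (((j : ℤ) + k : ℤ) : ℝ) ≤ ((N : ℤ) : ℝ) := by push_cast; linarith
    have h5 : (0 : ℤ) ≤ (j : ℤ) + k := by exact_mod_cast h3
    have h6 : (j : ℤ) + k ≤ N := by exact_mod_cast h4
    refine ⟨((j : ℤ) + k).toNat, ?_, ?_⟩
    · rw [Finset.mem_coe, Finset.mem_range]
      omega
    · simp only
      omega
  · intro i _
    congr 1
    push_cast
    ring

theorem PE1_int {Q : ℝ} {F : ℝ → ℂ} (hQ : 1 ≤ Q) (hF0 : ∀ y, y ∉ Set.Icc Q (4 * Q) → F y = 0) (hFc : Continuous F)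
    (N : ℕ) (hN : 4 * Q ≤ N) :
    (((∫ x in (0 : ℝ)..1, ‖∑ j ∈ Finset.range (N + 1), F (x + j)‖ ^ 2 : ℝ)) : ℂ) =
      ∑ k ∈ Finset.Icc (-(N : ℤ)) (N : ℤ), ∫ y : ℝ, PE1_H F k y := by
  have hHc : ∀ k : ℤ, Continuous (PE1_H F k) := by
    intro k
    unfold PE1_H
    exact (hFc.comp (continuous_id.add continuous_const)).mul (Complex.continuous_conj.comp hFc)
  have h1 : ∀ x ∈ Set.uIcc (0 : ℝ) 1, ((‖∑ j ∈ Finset.range (N + 1), F (x + j)‖ ^ 2 : ℝ) : ℂ) =
      ∑ k ∈ Finset.Icc (-(N : ℤ)) (N : ℤ), ∑ j ∈ Finset.range (N + 1), PE1_H F k (x + j) := by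
    intro x hx
    rw [Set.uIcc_of_le zero_le_one] at hx
    rw [Complex.ofReal_pow, ← Complex.mul_conj', map_sum, Finset.mul_sum, Finset.sum_comm]
    refine Finset.sum_congr rfl fun j hj => ?_
    rw [PE1_shift hQ hF0 N hN x hx.1 hx.2 j (by have := Finset.mem_range.1 hj; omega), Finset.sum_mul]
    rfl
  rw [← intervalIntegral.integral_ofReal, intervalIntegral.integral_congr h1, intervalIntegral.integral_finset_sum]
  · refine Finset.sum_congr rfl fun k _ => ?_
    rw [intervalIntegral.integral_finset_sum]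
    · have h2 : ∀ j ∈ Finset.range (N + 1), ∫ x in (0 : ℝ)..1, PE1_H F k (x + j) =
          ∫ y in (j : ℝ)..((j + 1 : ℕ) : ℝ), PE1_H F k y := by
        intro j _
        rw [intervalIntegral.integral_comp_add_right (fun y => PE1_H F k y) (j : ℝ), zero_add]
        congr 1
        push_cast
        ring
      rw [Finset.sum_congr rfl h2, intervalIntegral.sum_integral_adjacent_intervals (a := fun j : ℕ => (j : ℝ))
        (fun j _ => (hHc k).intervalIntegrable _ _)]
      apply intervalIntegral.integral_eq_integral_of_support_subset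
      intro y hy
      have h3 : y ∈ Set.Icc Q (4 * Q) := by
        by_contra hcon
        apply hy
        unfold PE1_H
        rw [hF0 y hcon, map_zero, mul_zero]
      have h4 := h3.1
      have h5 := h3.2
      refine ⟨?_, ?_⟩
      · push_cast
        linarith
      · push_cast
        linarith
    · intro j _
      exact ((hHc k).comp (continuous_id.add continuous_const)).intervalIntegrable _ _
  · intro k _
    refine Continuous.intervalIntegrable ?_ _ _
    exact continuous_finset_sum _ fun j _ => (hHc k).comp (continuous_id.add continuous_const)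

theorem PE1 : PE1_stmt := by
  intro Q A W c hQ hA
  obtain ⟨N, hNdef⟩ : ∃ N : ℕ, N = ⌈4 * Q⌉₊ := ⟨_, rfl⟩
  have hN : 4 * Q ≤ N := by rw [hNdef]; exact Nat.le_ceil _
  have hFu : ∀ y, FW A W c y = ∑ t ∈ W, c t * PE1_u A t y := fun y => rfl
  have hF0 : ∀ y, y ∉ Set.Icc Q (4 * Q) → FW A W c y = 0 := by
    intro y hy
    rw [hFu]
    exact Finset.sum_eq_zero fun t _ => by rw [PE1_u_zero hA.2.1 t y hy, mul_zero]
  have hFc : Continuous (FW A W c) :=
    continuous_finset_sum _ fun t _ => continuous_const.mul (PE1_u_cont hQ hA t)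
  have h1 := PE1_int hQ hF0 hFc N hN
  -- integrability of the products
  have hint : ∀ (t t' : ℝ) (k : ℤ), Integrable (fun y : ℝ => PE1_u A t (y + k) * (starRingEnd ℂ) (PE1_u A t' y)) := by
    intro t t' k
    refine Continuous.integrable_of_hasCompactSupport ?_ ?_
    · exact ((PE1_u_cont hQ hA t).comp (continuous_id.add continuous_const)).mul
        (Complex.continuous_conj.comp (PE1_u_cont hQ hA t'))
    · refine HasCompactSupport.intro (isCompact_Icc (a := Q) (b := 4 * Q)) fun y hy => ?_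
      rw [PE1_u_zero hA.2.1 t' y hy, map_zero, mul_zero]
  have h2 : ∀ k : ℤ, ∫ y : ℝ, PE1_H (FW A W c) k y =
      ∑ t ∈ W, ∑ t' ∈ W, (c t * (starRingEnd ℂ) (c t')) * OI A A t t' k := by
    intro k
    have h3 : ∀ y : ℝ, PE1_H (FW A W c) k y = ∑ t ∈ W, ∑ t' ∈ W, (c t * (starRingEnd ℂ) (c t')) *
        (PE1_u A t (y + k) * (starRingEnd ℂ) (PE1_u A t' y)) := by
      intro y
      unfold PE1_H
      rw [hFu, hFu, map_sum, Finset.sum_mul_sum]
      refine Finset.sum_congr rfl fun t _ => Finset.sum_congr rfl fun t' _ => ?_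
      rw [map_mul]
      ring
    rw [integral_congr_ae (Filter.Eventually.of_forall h3), integral_finset_sum]
    · refine Finset.sum_congr rfl fun t _ => ?_
      rw [integral_finset_sum]
      · refine Finset.sum_congr rfl fun t' _ => ?_
        rw [integral_const_mul, PE1_OI]
      · intro t' _
        exact (hint t t' k).const_mul _
    · intro t _
      exact integrable_finset_sum _ fun t' _ => (hint t t' k).const_mul _
  have h4 : ∫ x in (0 : ℝ)..1, ‖Pz Q (FW A W c) x‖ ^ 2 =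
      ∫ x in (0 : ℝ)..1, ‖∑ j ∈ Finset.range (N + 1), FW A W c (x + j)‖ ^ 2 := by
    rw [hNdef]
    rfl
  rw [h4, ← hNdef]
  set R : ℝ := ∫ x in (0 : ℝ)..1, ‖∑ j ∈ Finset.range (N + 1), FW A W c (x + j)‖ ^ 2 with hR
  have h5 : R ≤ ‖(R : ℂ)‖ := by
    rw [Complex.norm_real]
    exact le_abs_self R
  refine h5.trans ?_
  rw [h1]
  refine (norm_sum_le _ _).trans ?_
  have h6 : ∀ k ∈ Finset.Icc (-(N : ℤ)) (N : ℤ), ‖∫ y : ℝ, PE1_H (FW A W c) k y‖ ≤
      ∑ t ∈ W, ∑ t' ∈ W, ‖c t‖ * ‖c t'‖ * ‖OI A A t t' k‖ := by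
    intro k _
    rw [h2]
    refine (norm_sum_le _ _).trans (Finset.sum_le_sum fun t _ => ?_)
    refine (norm_sum_le _ _).trans (Finset.sum_le_sum fun t' _ => ?_)
    rw [norm_mul, norm_mul, RCLike.norm_conj]
  refine (Finset.sum_le_sum h6).trans (le_of_eq ?_)
  rw [Finset.sum_comm]
  refine Finset.sum_congr rfl fun t _ => ?_
  rw [Finset.sum_comm]
  refine Finset.sum_congr rfl fun t' _ => ?_
  rw [Finset.mul_sum]

end Pool.Agent.BEY
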